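import Pool.Agent.H8.UG.Targets

/-!
# Row GD1 of ubg_modules: base change along a Galois extension (helper79)
-/

set_option autoImplicit false

open CategoryTheory TensorProduct

namespace Pool.Agent.H79.UG

open Pool.Agent.H8.UG Pool.Agent.H8.UB Pool.Agent.H56.UDs

section

variable (k K : Type) [Field k] [Field K] [Algebra k K] (S : Type) [Ring S] [Algebra k S]

/-- the inclusion of `S` -/
abbrev inc : S →+* K ⊗[k] S := (Algebra.TensorProduct.includeRight : S →ₐ[k] K ⊗[k] S).toRingHom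

lemma inc_apply (s : S) : inc k K S s = (1 : K) ⊗ₜ[k] s := rfl

lemma exists_coord [FiniteDimensional k K] (u : K ⊗[k] S) :
    ∃ v : Fin (Module.finrank k K) → S,
      ∑ i, (Module.finBasis k K i) ⊗ₜ[k] v i = u := by
  induction u using TensorProduct.induction_on with
  | zero => exact ⟨fun _ => 0, by simp⟩
  | tmul x s =>
    refine ⟨fun i => (Module.finBasis k K).repr x i • s, ?_⟩
    have h : ∀ i, (Module.finBasis k K i) ⊗ₜ[k] ((Module.finBasis k K).repr x i • s) =
        ((Module.finBasis k K).repr x i • Module.finBasis k K i) ⊗ₜ[k] s := by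
      intro i
      rw [TensorProduct.smul_tmul]
    simp only [h]
    rw [← TensorProduct.sum_tmul, (Module.finBasis k K).sum_repr]
  | add u u' hu hu' =>
    obtain ⟨v, hv⟩ := hu
    obtain ⟨v', hv'⟩ := hu'
    refine ⟨fun i => v i + v' i, ?_⟩
    simp only [TensorProduct.tmul_add, Finset.sum_add_distrib, hv, hv']

lemma fin_inc [FiniteDimensional k K] : FinHom (inc k K S) := by
  let g : (Fin (Module.finrank k K) → S) →ₗ[S] RS (inc k K S) (K ⊗[k] S) :=
    { toFun := fun v => (∑ i, (Module.finBasis k K i) ⊗ₜ[k] v i : K ⊗[k] S)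
      map_add' := by
        intro v w
        have h : (∑ i, (Module.finBasis k K i) ⊗ₜ[k] (v + w) i : K ⊗[k] S) =
            (∑ i, (Module.finBasis k K i) ⊗ₜ[k] v i) +
              ∑ i, (Module.finBasis k K i) ⊗ₜ[k] w i := by
          rw [← Finset.sum_add_distrib]
          refine Finset.sum_congr rfl fun i _ => ?_
          rw [Pi.add_apply, TensorProduct.tmul_add]
        exact h
      map_smul' := by
        intro s v
        have h : (∑ i, (Module.finBasis k K i) ⊗ₜ[k] (s • v) i : K ⊗[k] S) =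
            (inc k K S s) * (∑ i, (Module.finBasis k K i) ⊗ₜ[k] v i) := by
          rw [Finset.mul_sum]
          refine Finset.sum_congr rfl fun i _ => ?_
          rw [inc_apply, Algebra.TensorProduct.tmul_mul_tmul, one_mul, Pi.smul_apply, smul_eq_mul]
        exact h }
  exact Module.Finite.of_surjective g (exists_coord k K S)

lemma ret_inc : ∃ r : (K ⊗[k] S) →+ S, (∀ a t, r (inc k K S a * t) = a * r t) ∧
    (∀ a t, r (t * inc k K S a) = r t * a) ∧ r 1 = 1 := by
  obtain ⟨r0, hr0⟩ := LinearMap.exists_leftInverse_of_injective (Algebra.linearMap k K)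
    (LinearMap.ker_eq_bot.2 (algebraMap k K).injective)
  have hr1 : r0 1 = 1 := by
    have h := LinearMap.congr_fun hr0 1
    simpa using h
  let r : (K ⊗[k] S) →ₗ[k] S := (TensorProduct.lid k S).toLinearMap ∘ₗ LinearMap.rTensor S r0
  have hr : ∀ x s, r (x ⊗ₜ[k] s) = r0 x • s := by
    intro x s
    simp [r]
  refine ⟨r.toAddMonoidHom, ?_, ?_, ?_⟩
  · intro a t
    show r (inc k K S a * t) = a * r t
    induction t using TensorProduct.induction_on with
    | zero => simp
    | tmul x s =>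
      rw [inc_apply, Algebra.TensorProduct.tmul_mul_tmul, one_mul, hr, hr, mul_smul_comm]
    | add u u' hu hu' => rw [mul_add, map_add, hu, hu', map_add, mul_add]
  · intro a t
    show r (t * inc k K S a) = r t * a
    induction t using TensorProduct.induction_on with
    | zero => simp
    | tmul x s =>
      rw [inc_apply, Algebra.TensorProduct.tmul_mul_tmul, mul_one, hr, hr, smul_mul_assoc]
    | add u u' hu hu' => rw [add_mul, map_add, hu, hu', map_add, add_mul]
  · show r 1 = 1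
    rw [Algebra.TensorProduct.one_def, hr, hr1, one_smul]

variable {k K}

/-- the automorphism of `K ⊗ S` given by an automorphism of `K` -/
def sg (g : K ≃ₐ[k] K) : (K ⊗[k] S) ≃+* (K ⊗[k] S) :=
  (Algebra.TensorProduct.congr g (AlgEquiv.refl : S ≃ₐ[k] S)).toRingEquiv

lemma sg_tmul (g : K ≃ₐ[k] K) (x : K) (s : S) : sg S g (x ⊗ₜ[k] s) = g x ⊗ₜ[k] s := rfl

section dec

variable {S} {X M : Type} [AddCommGroup X] [AddCommGroup M] [Module (K ⊗[k] S) X]
  [Module (K ⊗[k] S) M] (ψ : X →+ M) {ι : Type} [Fintype ι] (a b : ι → K)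

/-- the component -/
def cmp (g : K ≃ₐ[k] K) : X →+ M :=
  AddMonoidHom.mk' (fun x => ∑ j, (g (a j) ⊗ₜ[k] (1 : S)) • ψ ((b j ⊗ₜ[k] (1 : S)) • x)) (by
    intro x y
    simp only [smul_add, map_add, Finset.sum_add_distrib])

lemma cmp_apply (g : K ≃ₐ[k] K) (x : X) : cmp (S := S) ψ a b g x =
    ∑ j, (g (a j) ⊗ₜ[k] (1 : S)) • ψ ((b j ⊗ₜ[k] (1 : S)) • x) := rfl

lemma cmp_smul (hψ : ∀ (s : S) (x : X), ψ (inc k K S s • x) = inc k K S s • ψ x)
    (hab : ∀ x : K, ∃ c : ι → ι → k, (∀ i, b i * x = ∑ j, c i j • b j) ∧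
      ∀ j, x * a j = ∑ i, c i j • a i) (g : K ≃ₐ[k] K) (t : K ⊗[k] S) (x : X) :
    cmp (S := S) ψ a b g (t • x) = sg S g t • cmp (S := S) ψ a b g x := by
  induction t using TensorProduct.induction_on with
  | zero => simp
  | add u u' hu hu' => rw [add_smul, map_add, hu, hu', map_add, add_smul]
  | tmul y s =>
    obtain ⟨c, hc1, hc2⟩ := hab y
    rw [cmp_apply, cmp_apply, sg_tmul]
    have h1 : ∀ j, ψ ((b j ⊗ₜ[k] (1 : S)) • (y ⊗ₜ[k] s) • x) =
        ∑ l, ((1 : K) ⊗ₜ[k] (c j l • s)) • ψ ((b l ⊗ₜ[k] (1 : S)) • x) := by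
      intro j
      rw [smul_smul, Algebra.TensorProduct.tmul_mul_tmul, one_mul, hc1, TensorProduct.sum_tmul,
        Finset.sum_smul, map_sum]
      refine Finset.sum_congr rfl fun l _ => ?_
      have h2 : (c j l • b l) ⊗ₜ[k] s = inc k K S (c j l • s) * (b l ⊗ₜ[k] (1 : S)) := by
        rw [inc_apply, Algebra.TensorProduct.tmul_mul_tmul, one_mul, mul_one,
          TensorProduct.smul_tmul]
      rw [h2, mul_smul, hψ, inc_apply]
    simp only [h1, Finset.smul_sum]
    rw [Finset.sum_comm]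
    refine Finset.sum_congr rfl fun l _ => ?_
    simp only [smul_smul]
    rw [← Finset.sum_smul]
    congr 1
    have h3 : ∀ j, (g (a j) ⊗ₜ[k] (1 : S)) * ((1 : K) ⊗ₜ[k] (c j l • s)) =
        (g (c j l • a j)) ⊗ₜ[k] s := by
      intro j
      rw [Algebra.TensorProduct.tmul_mul_tmul, one_mul, mul_one, map_smul,
        TensorProduct.smul_tmul]
    simp only [h3]
    rw [← TensorProduct.sum_tmul, ← map_sum, ← hc2, map_mul,
      Algebra.TensorProduct.tmul_mul_tmul, mul_one]

lemma cmp_sum {κ : Type} [Fintype κ] (g : κ → (K ≃ₐ[k] K))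
    (hψ : ∀ (s : S) (x : X), ψ (inc k K S s • x) = inc k K S s • ψ x)
    (h1 : ∑ i, (∑ m, g m (a i)) * b i = 1)
    (h2 : ∀ x : K, ∃ t : k, ∑ m, g m x = algebraMap k K t) (x : X) :
    ψ x = ∑ m, cmp (S := S) ψ a b (g m) x := by
  simp only [cmp_apply]
  rw [Finset.sum_comm]
  have h3 : ∀ j, ∑ m, (g m (a j) ⊗ₜ[k] (1 : S)) • ψ ((b j ⊗ₜ[k] (1 : S)) • x) =
      ψ ((((∑ m, g m (a j)) * b j) ⊗ₜ[k] (1 : S)) • x) := by
    intro j
    obtain ⟨t, ht⟩ := h2 (a j)
    rw [← Finset.sum_smul, ← TensorProduct.sum_tmul, ht]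
    have h4 : (algebraMap k K t) ⊗ₜ[k] (1 : S) = inc k K S (t • 1) := by
      rw [inc_apply, Algebra.algebraMap_eq_smul_one, TensorProduct.smul_tmul]
    rw [h4, ← hψ, smul_smul]
    congr 2
    rw [inc_apply, Algebra.TensorProduct.tmul_mul_tmul, one_mul, mul_one,
      Algebra.algebraMap_eq_smul_one, smul_mul_assoc, one_mul, TensorProduct.smul_tmul]
  simp only [h3]
  rw [← map_sum, ← Finset.sum_smul, ← TensorProduct.sum_tmul, h1,
    ← Algebra.TensorProduct.one_def, one_smul]

end dec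

end

theorem pf_GD1 (hTRD : G_TRD) : G_GD1 := by
  intro k K _ _ _ _ _ S _ _
  have hcard : Nat.card Gal(K/k) = Module.finrank k K := IsGalois.card_aut_eq_finrank k K
  let e : Fin (Module.finrank k K) ≃ Gal(K/k) :=
    ((Finite.equivFin Gal(K/k)).trans (finCongr hcard)).symm
  obtain ⟨a, h1, -, h3⟩ := hTRD k K (Module.finBasis k K)
  obtain ⟨h4, h5⟩ := h3 inferInstance
  have hsum : ∀ x : K, ∑ m, (e m) x = ∑ g : Gal(K/k), g x := by
    intro x
    exact Equiv.sum_comp e fun g : Gal(K/k) => g x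
  refine ⟨fun i => sg S (e i), fin_inc k K S, ret_inc k K S, ?_, ?_⟩
  · intro i s
    show sg S (e i) ((1 : K) ⊗ₜ[k] s) = (1 : K) ⊗ₜ[k] s
    rw [sg_tmul, map_one]
  · intro X M _ _ _ _ ψ hψ
    refine ⟨fun i => cmp (S := S) ψ a (Module.finBasis k K) (e i), ?_, ?_⟩
    · intro i t x
      exact cmp_smul ψ a (Module.finBasis k K) hψ h1 (e i) t x
    · intro x
      refine cmp_sum ψ a (Module.finBasis k K) (fun m => (e m : K ≃ₐ[k] K)) hψ ?_ ?_ x
      · simp only [hsum]
        exact h4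
      · intro y
        simp only [hsum]
        exact h5 y

end Pool.Agent.H79.UG
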